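import Pool.Agent.Lib.H38H.AU.Defs

/-!
Project H38H, chunk AU1 (S). Representatives of the cycles.
-/

set_option autoImplicit false

namespace Pool.Agent.H38H.AU

open Classical

variable {N : ℕ}

/-- PROOF. The least element of the finite set of the `(τ ^ k) v`. -/
theorem exists_rep (τ : Equiv.Perm (Fin N)) (v : Fin N) (hv : τ v ≠ v) :
    ∃ r ∈ reps τ, ∃ k : ℤ, (τ ^ k) r = v := by
  classical
  let O : Finset (Fin N) := Finset.univ.filter fun w => ∃ k : ℤ, (τ ^ k) v = w
  have hO : O.Nonempty := ⟨v, by simp only [O, Finset.mem_filter, Finset.mem_univ, true_and]; exact ⟨0, by simp⟩⟩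
  obtain ⟨r, hr, hmin⟩ := O.exists_min_image id hO
  simp only [O, Finset.mem_filter, Finset.mem_univ, true_and] at hr hmin
  obtain ⟨k, hk⟩ := hr
  have hkr : (τ ^ (-k)) r = v := by
    rw [← hk, ← Equiv.Perm.mul_apply, ← zpow_add]
    simp
  refine ⟨r, ?_, -k, hkr⟩
  rw [mem_reps]
  refine ⟨fun h => hv ?_, fun j => ?_⟩
  · have h1 : (τ ^ (-k)) r = r := by
      exact Equiv.Perm.zpow_apply_eq_self_of_apply_eq_self h (-k)
    rw [hkr] at h1
    rw [h1]
    exact h
  · refine hmin _ ⟨j + k, ?_⟩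
    rw [zpow_add, Equiv.Perm.mul_apply, hk]

/-- PROOF. `r ≤ (τ ^ k) r = r'` and `r' ≤ (τ ^ (-k)) r' = r`. -/
theorem rep_unique (τ : Equiv.Perm (Fin N)) {r r' : Fin N} (hr : r ∈ reps τ) (hr' : r' ∈ reps τ)
    (k : ℤ) (h : (τ ^ k) r = r') : r = r' := by
  rw [mem_reps] at hr hr'
  have h1 : (τ ^ (-k)) r' = r := by
    rw [← h, ← Equiv.Perm.mul_apply, ← zpow_add]
    simp
  refine le_antisymm ?_ ?_
  · have := hr.2 k
    rwa [h] at this
  · have := hr'.2 (-k)
    rwa [h1] at this

/-- PROOF. `reps τ` and its image under `τ` are disjoint (rep_unique with k = 1 and `τ r ≠ r`) subsets of the support. -/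
theorem two_reps (τ : Equiv.Perm (Fin N)) : 2 * (reps τ).card ≤ τ.support.card := by
  have h1 : Disjoint (reps τ) ((reps τ).image τ) := by
    rw [Finset.disjoint_left]
    intro a ha hb
    obtain ⟨b, hb', rfl⟩ := Finset.mem_image.1 hb
    have h2 := rep_unique τ hb' ha 1 (by rw [zpow_one])
    exact (mem_reps.1 hb').1 h2.symm
  have h2 : ((reps τ).image τ).card = (reps τ).card := Finset.card_image_of_injective _ τ.injective
  rw [two_mul]
  nth_rw 2 [← h2]
  rw [← Finset.card_union_of_disjoint h1]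
  refine Finset.card_le_card ?_
  intro v hv
  rw [Equiv.Perm.mem_support]
  rcases Finset.mem_union.1 hv with h | h
  · exact (mem_reps.1 h).1
  · obtain ⟨b, hb, rfl⟩ := Finset.mem_image.1 h
    intro h3
    exact (mem_reps.1 hb).1 (τ.injective h3)

end Pool.Agent.H38H.AU
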