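import Pool.Agent.Lib.H38H.AU.Defs
import Pool.Agent.Lib.H38H.VO.Defs

/-!
Project H38H, chunk AU9 (M). PURE. Generating function of the number of cycles (VO13 with 2 replaced by t; take that proof).
PROOF. Induction on the number of elements. `cyc` is invariant under transport along an equivalence. Step from `β` to `Option β`: `Equiv.Perm.decomposeOption : Perm (Option β) ≃ Option β × Perm β`,
`(decomposeOption.symm (o, ρ)) = swap none o * optionCongr ρ`. If `o = none` the new permutation has at most one cycle more (the fixed point `none`). If `o = some b`, `none` is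
inserted in a cycle: the map class of `x` ↦ class of `some x` is well defined (`ρ` and the new permutation have the same orbits on `β` up to the inserted point) and surjective (the class of `none` contains
`some b` or `some (ρ⁻¹ b)`), so at most as many cycles. So the sum for `m + 1` elements is `≤ (t + m) *` the sum for `m` elements (t ≥ 1).
-/

set_option autoImplicit false

namespace Pool.Agent.H38H.AU

open Classical

theorem au9_zpow {β γ : Type} (ρ : Equiv.Perm β) (f : β → γ) (h : f ∘ ρ = f) (n : ℤ) (x : β) :
    f ((ρ ^ n) x) = f x := by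
  have hn : ∀ (n : ℕ) (x : β), f ((ρ ^ n) x) = f x := by
    intro n
    induction n with
    | zero => intro x; rfl
    | succ n ih =>
      intro x
      rw [pow_succ, Equiv.Perm.mul_apply, ih]
      exact congrFun h x
  rcases Int.eq_nat_or_neg n with ⟨m, rfl | rfl⟩
  · rw [zpow_natCast]
    exact hn m x
  · have h1 := hn m ((ρ ^ (-(m : ℤ))) x)
    rw [← Equiv.Perm.mul_apply, ← zpow_natCast, ← zpow_add, add_neg_cancel, zpow_zero,
      Equiv.Perm.one_apply] at h1
    exact h1.symm

/-- invariant functions are functions on the set of cycles -/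
noncomputable def au9_equiv {β : Type} (γ : Type) (ρ : Equiv.Perm β) :
    {f : β → γ // f ∘ ρ = f} ≃ (Quotient (Equiv.Perm.SameCycle.setoid ρ) → γ) where
  toFun f := Quotient.lift f.1 (by
    rintro x y ⟨n, hn⟩
    rw [← hn]
    exact (au9_zpow ρ f.1 f.2 n x).symm)
  invFun g := ⟨fun x => g (Quotient.mk _ x), by
    funext x
    show g (Quotient.mk _ (ρ x)) = g (Quotient.mk _ x)
    congr 1
    apply Quotient.sound
    exact ⟨-1, by simp⟩⟩
  left_inv f := by
    apply Subtype.ext
    rfl
  right_inv g := by
    funext q
    induction q using Quotient.inductionOn with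
    | h x => rfl

theorem au9_card (t : ℕ) {β : Type} [Fintype β] (ρ : Equiv.Perm β) :
    t ^ VO.cyc ρ = ∑ f : β → Fin t, if f ∘ ρ = f then 1 else 0 := by
  rw [← Finset.card_filter, ← Fintype.card_subtype, Fintype.card_congr (au9_equiv (Fin t) ρ),
    Fintype.card_fun, Fintype.card_fin]
  unfold VO.cyc
  rw [Nat.card_eq_fintype_card]

theorem au9_W (t m : ℕ) :
    ∑ f : Fin m → Fin t, ∏ i : Fin t, Nat.factorial (Fintype.card {a // f a = i}) =
      ∏ i ∈ Finset.range m, (t + i) := by
  induction m with
  | zero => simp
  | succ m ih =>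
    rw [Finset.prod_range_succ, ← ih, Finset.sum_mul]
    rw [← Fintype.sum_equiv (Fin.consEquiv fun _ : Fin (m + 1) => Fin t) (fun p =>
      ∏ i : Fin t, Nat.factorial (Fintype.card {a // Fin.cons (α := fun _ => Fin t) p.1 p.2 a = i})) _
      (fun p => rfl), Fintype.sum_prod_type_right]
    refine Finset.sum_congr rfl fun f _ => ?_
    have h1 : ∀ j i : Fin t, Fintype.card {a // Fin.cons (α := fun _ => Fin t) j f a = i} =
        if j = i then Fintype.card {a // f a = i} + 1 else Fintype.card {a // f a = i} := by
      intro j i
      rw [Fintype.card_subtype, Fin.card_filter_univ_succ, Fintype.card_subtype]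
      simp only [Fin.cons_zero, Fin.cons_succ]
    have h2 : ∀ j : Fin t, ∏ i : Fin t,
        Nat.factorial (Fintype.card {a // Fin.cons (α := fun _ => Fin t) j f a = i}) =
        (Fintype.card {a // f a = j} + 1) * ∏ i : Fin t, Nat.factorial (Fintype.card {a // f a = i}) := by
      intro j
      have h3 : ∀ i : Fin t,
          Nat.factorial (Fintype.card {a // Fin.cons (α := fun _ => Fin t) j f a = i}) =
          (if j = i then Fintype.card {a // f a = i} + 1 else 1) *
            Nat.factorial (Fintype.card {a // f a = i}) := by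
        intro i
        rw [h1]
        split_ifs
        · rw [Nat.factorial_succ]
        · rw [one_mul]
      rw [Finset.prod_congr rfl fun i _ => h3 i, Finset.prod_mul_distrib, Finset.prod_ite_eq]
      simp
    rw [Finset.sum_congr rfl fun j _ => h2 j, ← Finset.sum_mul, mul_comm]
    congr 1
    rw [Finset.sum_add_distrib, Finset.sum_const, Finset.card_univ, Fintype.card_fin, smul_eq_mul,
      mul_one, add_comm]
    congr 1
    have h4 := Finset.card_eq_sum_card_fiberwise (s := (Finset.univ : Finset (Fin m)))
      (t := (Finset.univ : Finset (Fin t))) (f := f) (fun _ _ => Finset.mem_univ _)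
    rw [Finset.card_univ, Fintype.card_fin] at h4
    refine Eq.trans ?_ h4.symm
    exact Finset.sum_congr rfl fun j _ => Fintype.card_subtype _

theorem sum_pow_cyc (t : ℕ) (ht : 1 ≤ t) (β : Type) [Fintype β] :
    ∑ ρ : Equiv.Perm β, t ^ VO.cyc ρ ≤ ∏ i ∈ Finset.range (Fintype.card β), (t + i) := by
  apply le_of_eq
  calc ∑ ρ : Equiv.Perm β, t ^ VO.cyc ρ
      = ∑ ρ : Equiv.Perm β, ∑ f : β → Fin t, (if f ∘ ρ = f then 1 else 0) :=
        Finset.sum_congr rfl fun ρ _ => au9_card t ρ
    _ = ∑ f : β → Fin t, ∑ ρ : Equiv.Perm β, (if f ∘ ρ = f then 1 else 0) := Finset.sum_comm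
    _ = ∑ f : β → Fin t, Fintype.card {ρ : Equiv.Perm β // f ∘ ρ = f} := by
        refine Finset.sum_congr rfl fun f _ => ?_
        rw [← Finset.card_filter, ← Fintype.card_subtype]
    _ = ∑ f : β → Fin t, ∏ i : Fin t, Nat.factorial (Fintype.card {a // f a = i}) := by
        refine Finset.sum_congr rfl fun f _ => ?_
        exact DomMulAct.stabilizer_card f
    _ = ∑ f : Fin (Fintype.card β) → Fin t,
          ∏ i : Fin t, Nat.factorial (Fintype.card {a // f a = i}) := by
        refine Fintype.sum_equiv (Equiv.arrowCongr (Fintype.equivFin β) (Equiv.refl (Fin t))) _ _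
          fun f => ?_
        refine Finset.prod_congr rfl fun i _ => ?_
        congr 1
        refine Fintype.card_congr ((Fintype.equivFin β).subtypeEquiv fun a => ?_)
        simp
    _ = _ := au9_W t _

end Pool.Agent.H38H.AU
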