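import Pool.Agent.Lib.H38H.AU.AU1
import Pool.Agent.Lib.H38H.AU.AU9

/-!
Project H38H, chunk AU10 (M). Permutations with support `S`.
PROOF. Let `τ.support = S`. The restriction `ρ τ : Equiv.Perm {v // v ∈ S}` (`Equiv.Perm.subtypePerm`, `τ v ∈ support ↔ v ∈ support`: `Equiv.Perm.apply_mem_support`) determines `τ` (outside `S` it is the
identity), so the left side is at most the sum over all `ρ` of `t ^ cyc ρ`, provided that `|reps τ| ≤ cyc (ρ τ)`: map `r ∈ reps τ` (an element of `S`) to its class; injective by rep_unique (`SameCycle` for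
the restriction gives `(τ ^ k) r = r'`, `Equiv.Perm.subtypePerm_zpow`). `t ≥ 1`. (`Finset.sum_le_sum` and `Finset.sum_le_sum_of_injOn`-style, or `Finset.sum_image`.)
-/

set_option autoImplicit false

namespace Pool.Agent.H38H.AU

open Classical

variable {N : ℕ}

theorem au10_mem {S : Finset (Fin N)} {τ : Equiv.Perm (Fin N)} (h : τ.support = S) (x : Fin N) :
    τ x ∈ S ↔ x ∈ S := by
  rw [← h]
  exact Equiv.Perm.apply_mem_support

/-- the restriction -/
noncomputable def au10_r (S : Finset (Fin N)) (τ : Equiv.Perm (Fin N)) : Equiv.Perm {v : Fin N // v ∈ S} :=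
  if h : τ.support = S then τ.subtypePerm (au10_mem h) else 1

theorem au10_val {S : Finset (Fin N)} {τ : Equiv.Perm (Fin N)} (h : τ.support = S) (x : {v : Fin N // v ∈ S}) :
    ((au10_r S τ x : {v : Fin N // v ∈ S}) : Fin N) = τ x := by
  unfold au10_r
  rw [dif_pos h]
  rfl

theorem au10_zpow {S : Finset (Fin N)} {τ : Equiv.Perm (Fin N)} (h : τ.support = S) (k : ℤ)
    (x : {v : Fin N // v ∈ S}) :
    ((((au10_r S τ) ^ k) x : {v : Fin N // v ∈ S}) : Fin N) = (τ ^ k) x := by
  unfold au10_r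
  rw [dif_pos h, Equiv.Perm.subtypePerm_zpow]
  rfl

theorem au10_reps {S : Finset (Fin N)} {τ : Equiv.Perm (Fin N)} (h : τ.support = S) :
    (reps τ).card ≤ VO.cyc (au10_r S τ) := by
  have hS : ∀ r ∈ reps τ, r ∈ S := by
    intro r hr
    rw [← h, Equiv.Perm.mem_support]
    exact (mem_reps.1 hr).1
  have e : (reps τ).card = Nat.card {r : Fin N // r ∈ reps τ} := by
    rw [Nat.card_eq_fintype_card, Fintype.card_coe]
  rw [e]
  unfold VO.cyc
  refine Nat.card_le_card_of_injective
    (fun r : {r : Fin N // r ∈ reps τ} =>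
      (Quotient.mk (Equiv.Perm.SameCycle.setoid (au10_r S τ)) ⟨r.1, hS r.1 r.2⟩)) ?_
  intro r r' hrr
  have h1 : Equiv.Perm.SameCycle (au10_r S τ) ⟨r.1, hS r.1 r.2⟩ ⟨r'.1, hS r'.1 r'.2⟩ := Quotient.exact hrr
  obtain ⟨k, hk⟩ := h1
  have h2 := congrArg Subtype.val hk
  rw [au10_zpow h] at h2
  exact Subtype.ext (rep_unique τ r.2 r'.2 k h2)

theorem sum_reps (t : ℕ) (ht : 1 ≤ t) (S : Finset (Fin N)) :
    ∑ τ ∈ (Finset.univ : Finset (Equiv.Perm (Fin N))).filter (fun τ => τ.support = S),
      t ^ (reps τ).card ≤ ∏ i ∈ Finset.range S.card, (t + i) := by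
  have h0 : Fintype.card {v : Fin N // v ∈ S} = S.card := by simp
  have h1 := sum_pow_cyc t ht {v : Fin N // v ∈ S}
  rw [h0] at h1
  refine le_trans ?_ h1
  calc ∑ τ ∈ (Finset.univ : Finset (Equiv.Perm (Fin N))).filter (fun τ => τ.support = S), t ^ (reps τ).card
      ≤ ∑ τ ∈ (Finset.univ : Finset (Equiv.Perm (Fin N))).filter (fun τ => τ.support = S),
        t ^ VO.cyc (au10_r S τ) := by
        refine Finset.sum_le_sum fun τ hτ => ?_
        exact Nat.pow_le_pow_right ht (au10_reps (Finset.mem_filter.1 hτ).2)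
    _ = ∑ ρ ∈ ((Finset.univ : Finset (Equiv.Perm (Fin N))).filter (fun τ => τ.support = S)).image (au10_r S),
        t ^ VO.cyc ρ := by
        rw [Finset.sum_image]
        intro τ hτ τ' hτ' h
        have h2 := (Finset.mem_filter.1 (Finset.mem_coe.1 hτ)).2
        have h2' := (Finset.mem_filter.1 (Finset.mem_coe.1 hτ')).2
        ext x
        by_cases hx : x ∈ S
        · have e1 := au10_val h2 ⟨x, hx⟩
          have e2 := au10_val h2' ⟨x, hx⟩
          rw [h] at e1
          rw [e1] at e2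
          exact congrArg _ e2
        · have e1 : τ x = x := by
            rw [← h2] at hx
            exact Equiv.Perm.notMem_support.1 hx
          have e2 : τ' x = x := by
            rw [← h2'] at hx
            exact Equiv.Perm.notMem_support.1 hx
          rw [e1, e2]
    _ ≤ ∑ ρ : Equiv.Perm {v : Fin N // v ∈ S}, t ^ VO.cyc ρ :=
        Finset.sum_le_sum_of_subset (Finset.subset_univ _)
    _ ≤ _ := le_of_eq (Finset.sum_congr (Finset.ext (by simp)) (fun _ _ => rfl))

end Pool.Agent.H38H.AU
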