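import Mathlib

/-!
Project H38H, chunk AU11 (S/M). PURE arithmetic.
-/

set_option autoImplicit false

namespace Pool.Agent.H38H.AU

/-- PROOF. The product is `Nat.ascFactorial s s` (`Nat.ascFactorial_eq_prod_range`) `= (2 s - 1)! / (s - 1)!`; `≤ 4 ^ s s!`: `(s + i) ≤ ...`: `Nat.ascFactorial` times `(s-1)!` is `(2s-1)!`, and
`(2 s)! ≤ 4 ^ s s! s!` (`Nat.four_pow_le_two_mul_self_mul_centralBinom` is the other direction; `Nat.centralBinom s ≤ 4 ^ s`: sum of the binomial coefficients, `Nat.sum_range_choose`). s = 0: both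
sides 1. -/
theorem prod_le (s : ℕ) : ∏ i ∈ Finset.range s, (s + i) ≤ 4 ^ s * Nat.factorial s := by
  rw [← Nat.ascFactorial_eq_prod_range, Nat.ascFactorial_eq_factorial_mul_choose', mul_comm]
  apply Nat.mul_le_mul_right
  calc (s + s - 1).choose s ≤ 2 ^ (s + s - 1) := Nat.choose_le_two_pow _ _
    _ ≤ 2 ^ (2 * s) := Nat.pow_le_pow_right (by norm_num) (by omega)
    _ = 4 ^ s := by rw [pow_mul]; norm_num

/-- PROOF. `Nat.descFactorial_eq_factorial_mul_choose`, `Nat.descFactorial_le_pow`. -/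
theorem choose_fact_le (N s : ℕ) : N.choose s * Nat.factorial s ≤ N ^ s := by
  rw [mul_comm, ← Nat.descFactorial_eq_factorial_mul_choose]
  exact Nat.descFactorial_le_pow N s

theorem au11_term (K : ℝ) (hK : 0 ≤ K) (N : ℕ) (hN : 1 ≤ N)
    (hKN : K / Real.sqrt (Real.sqrt N) ≤ 1 / 2) (s : ℕ) (h5 : 5 ≤ s) (hs : s ≤ N) :
    (K * Real.sqrt (Real.sqrt s) / Real.sqrt N) ^ s ≤
      (2 ^ 20 * (3 * K + 1) ^ 20) / ((N : ℝ) ^ 2 * Real.sqrt N) * (1 / 2) ^ s := by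
  have hN1 : (1 : ℝ) ≤ N := by exact_mod_cast hN
  set r : ℝ := Real.sqrt N with hr
  have hr1 : 1 ≤ r := by
    rw [hr]
    exact Real.one_le_sqrt.mpr hN1
  have hrr : r * r = N := Real.mul_self_sqrt (by positivity)
  set w : ℝ := Real.sqrt r with hw
  have hw1 : 1 ≤ w := by
    rw [hw]
    exact Real.one_le_sqrt.mpr hr1
  have hww : w * w = r := Real.mul_self_sqrt (by positivity)
  have hK1 : (1 : ℝ) ≤ 3 * K + 1 := by linarith
  have hden : (N : ℝ) ^ 2 * r = r ^ 5 := by rw [← hrr]; ring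
  rw [hden]
  rcases le_or_gt s 20 with h20 | h20
  · have h1 : Real.sqrt (Real.sqrt s) ≤ 3 := by
      rw [Real.sqrt_le_left (by norm_num)]
      rw [Real.sqrt_le_left (by norm_num)]
      have : (s : ℝ) ≤ 20 := by exact_mod_cast h20
      norm_num
      linarith
    have h2 : K * Real.sqrt (Real.sqrt s) / r ≤ (3 * K + 1) / r := by
      apply div_le_div_of_nonneg_right _ (by linarith)
      nlinarith [Real.sqrt_nonneg (Real.sqrt s)]
    have h3 : (K * Real.sqrt (Real.sqrt s) / r) ^ s ≤ ((3 * K + 1) / r) ^ s :=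
      pow_le_pow_left₀ (by positivity) h2 s
    refine h3.trans ?_
    rw [div_pow]
    have h4 : (3 * K + 1) ^ s ≤ (3 * K + 1) ^ 20 := pow_le_pow_right₀ hK1 h20
    have h5' : r ^ 5 ≤ r ^ s := pow_le_pow_right₀ hr1 h5
    have h6 : (3 * K + 1) ^ s / r ^ s ≤ (3 * K + 1) ^ 20 / r ^ 5 :=
      div_le_div₀ (by positivity) h4 (by positivity) h5'
    refine h6.trans ?_
    have h7 : (1 : ℝ) ≤ 2 ^ 20 * (1 / 2) ^ s := by
      have : (2 : ℝ) ^ 20 * (1 / 2) ^ s = 2 ^ (20 - s) := by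
        rw [one_div, inv_pow, pow_sub₀ (2 : ℝ) (by norm_num) h20]
      rw [this]
      exact one_le_pow₀ (by norm_num)
    have h8 : (0 : ℝ) ≤ (3 * K + 1) ^ 20 / r ^ 5 := by positivity
    calc (3 * K + 1) ^ 20 / r ^ 5 = (3 * K + 1) ^ 20 / r ^ 5 * 1 := by ring
      _ ≤ (3 * K + 1) ^ 20 / r ^ 5 * (2 ^ 20 * (1 / 2) ^ s) :=
          mul_le_mul_of_nonneg_left h7 h8
      _ = _ := by ring
  · have h1 : Real.sqrt (Real.sqrt s) ≤ w := by
      rw [hw, hr]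
      apply Real.sqrt_le_sqrt
      apply Real.sqrt_le_sqrt
      exact_mod_cast hs
    have h2 : K * Real.sqrt (Real.sqrt s) / r ≤ K / w := by
      rw [← hww, ← div_div]
      apply div_le_div_of_nonneg_right _ (by linarith)
      rw [div_le_iff₀ (by linarith)]
      exact mul_le_mul_of_nonneg_left h1 hK
    have h3 : (K * Real.sqrt (Real.sqrt s) / r) ^ s ≤ (K / w) ^ s :=
      pow_le_pow_left₀ (by positivity) h2 s
    refine h3.trans ?_
    have h4 : (K / w) ^ s = (K / w) ^ 20 * (K / w) ^ (s - 20) := by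
      rw [← pow_add]
      congr 1
      omega
    rw [h4]
    have h5' : (K / w) ^ (s - 20) ≤ (1 / 2) ^ (s - 20) :=
      pow_le_pow_left₀ (by positivity) hKN _
    have h6 : (1 / 2 : ℝ) ^ (s - 20) = 2 ^ 20 * (1 / 2) ^ s := by
      have : s = (s - 20) + 20 := by omega
      conv_rhs => rw [this, pow_add]
      ring
    have h7 : (K / w) ^ 20 ≤ (3 * K + 1) ^ 20 / r ^ 5 := by
      rw [div_pow]
      apply div_le_div₀ (by positivity)
      · exact pow_le_pow_left₀ hK (by linarith) 20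
      · positivity
      · have : w ^ 20 = r ^ 10 := by rw [← hww]; ring
        rw [this]
        exact pow_le_pow_right₀ hr1 (by norm_num)
    calc (K / w) ^ 20 * (K / w) ^ (s - 20)
        ≤ ((3 * K + 1) ^ 20 / r ^ 5) * (1 / 2) ^ (s - 20) := by
          apply mul_le_mul h7 h5' (by positivity) (by positivity)
      _ = _ := by rw [h6]; ring

/-- PROOF. `K ≥ 0`; enlarge it to `K ≥ 1`. `N₀ = (2 K)^4 + 1`-like, so that `K / N^(1/4) ≤ 1/2`; for `5 ≤ s ≤ 20`: `sqrt (sqrt s) ≤ 3`, `(K sqrt (sqrt s) / sqrt N) ^ s ≤ (3 K) ^ 20 (1 / sqrt N) ^ 5` and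
`(1 / sqrt N) ^ 5 = 1 / (N ^ 2 sqrt N)`. For `20 < s ≤ N`: `sqrt (sqrt s) ≤ sqrt (sqrt N)`, so the term is at most `(K / sqrt (sqrt N)) ^ s ≤ (K / sqrt (sqrt N)) ^ 20 (1/2)^(s - 20)
= K ^ 20 / N ^ 5 (1/2) ^ (s - 20)`; the sum of these is at most `K ^ 20 / N ^ 5 ≤ K ^ 20 / (N ^ 2 sqrt N)`. So `C = 16 (3 K) ^ 20 + K ^ 20`. -/
theorem sum_numeric (K : ℝ) (hK : 0 ≤ K) : ∃ C : ℝ, ∃ N₀ : ℕ, ∀ N : ℕ, N₀ ≤ N →
    ∑ s ∈ Finset.Icc 5 N, (K * Real.sqrt (Real.sqrt s) / Real.sqrt N) ^ s ≤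
      C / ((N : ℝ) ^ 2 * Real.sqrt N) := by
  refine ⟨2 * (2 ^ 20 * (3 * K + 1) ^ 20), Nat.ceil ((2 * K) ^ 4) + 1, fun N hN => ?_⟩
  have hN1 : 1 ≤ N := by omega
  have hNr : (2 * K) ^ 4 ≤ (N : ℝ) := by
    have h1 := Nat.le_ceil ((2 * K) ^ 4)
    have h2 : ((Nat.ceil ((2 * K) ^ 4) : ℕ) : ℝ) ≤ N := by exact_mod_cast (by omega)
    linarith
  have hw : 2 * K ≤ Real.sqrt (Real.sqrt N) := by
    apply Real.le_sqrt_of_sq_le
    apply Real.le_sqrt_of_sq_le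
    calc (((2 * K) ^ 2) ^ 2 : ℝ) = (2 * K) ^ 4 := by ring
      _ ≤ (N : ℝ) := hNr
  have hN0 : (0 : ℝ) < N := by exact_mod_cast hN1
  have hw0 : 0 < Real.sqrt (Real.sqrt N) := Real.sqrt_pos.mpr (Real.sqrt_pos.mpr hN0)
  have hKN : K / Real.sqrt (Real.sqrt N) ≤ 1 / 2 := by
    rw [div_le_iff₀ hw0]
    linarith
  calc ∑ s ∈ Finset.Icc 5 N, (K * Real.sqrt (Real.sqrt s) / Real.sqrt N) ^ s
      ≤ ∑ s ∈ Finset.Icc 5 N,
          (2 ^ 20 * (3 * K + 1) ^ 20) / ((N : ℝ) ^ 2 * Real.sqrt N) * (1 / 2) ^ s := by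
        apply Finset.sum_le_sum
        intro s hs
        rw [Finset.mem_Icc] at hs
        exact au11_term K hK N hN1 hKN s hs.1 hs.2
    _ = (2 ^ 20 * (3 * K + 1) ^ 20) / ((N : ℝ) ^ 2 * Real.sqrt N) *
          ∑ s ∈ Finset.Icc 5 N, (1 / 2 : ℝ) ^ s := by rw [Finset.mul_sum]
    _ ≤ (2 ^ 20 * (3 * K + 1) ^ 20) / ((N : ℝ) ^ 2 * Real.sqrt N) * 2 := by
        apply mul_le_mul_of_nonneg_left _ (by positivity)
        have := summable_geometric_two.sum_le_tsum (Finset.Icc 5 N) (fun i _ => by positivity)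
        rwa [tsum_geometric_two] at this
    _ = _ := by ring

end Pool.Agent.H38H.AU
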