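import Pool.Agent.Lib.H38H.AU.AU8
import Pool.Agent.Lib.H38H.AU.AU10
import Pool.Agent.Lib.H38H.AU.AU11

/-!
Project H38H, chunk AU12 (M). Sum over the permutations with a support of `s` elements.
PROOF. `c = |reps τ|`, `2 c ≤ s` (two_reps). card_aut: the term of `τ` is at most `q ^ (3 s) (2 exp 19) ^ c (sqrt s) ^ (3 c) X N`; `(2 exp 19) ^ c ≤ (2 exp 19) ^ s`;
`(sqrt s) ^ (3 c) = s ^ c (sqrt s) ^ c = s ^ c (sqrt (sqrt s)) ^ (2 c) ≤ s ^ c (sqrt (sqrt s)) ^ s` (s ≥ 1). Sum over `τ` with support `S` (sum_reps with t = s, prod_le): `∑ s ^ c ≤ 4 ^ s s!`. Sum over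
the `N.choose s` sets `S` (`Finset.card_powersetCard`, `Finset.sum_fiberwise`): choose_fact_le. Together
`N ^ s q ^ (3 s) (4 * 2 exp 19) ^ s (sqrt (sqrt s)) ^ s X N`, and `N q ^ 3 = 18 sqrt 18 / sqrt N`.
-/

set_option autoImplicit false

namespace Pool.Agent.H38H.AU

open Classical

variable {N : ℕ}

/-- the constant -/
noncomputable def KK : ℝ := 8 * Real.exp 19 * (18 * Real.sqrt 18)

theorem au12_sum (s : ℕ) (hs : 1 ≤ s) :
    ∑ τ ∈ (Finset.univ : Finset (Equiv.Perm (Fin N))).filter (fun τ => τ.support.card = s),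
      s ^ (reps τ).card ≤ 4 ^ s * N ^ s := by
  have h1 : ∀ τ ∈ (Finset.univ : Finset (Equiv.Perm (Fin N))).filter (fun τ => τ.support.card = s),
      τ.support ∈ Finset.powersetCard s (Finset.univ : Finset (Fin N)) := by
    intro τ hτ
    rw [Finset.mem_powersetCard]
    exact ⟨Finset.subset_univ _, (Finset.mem_filter.1 hτ).2⟩
  rw [← Finset.sum_fiberwise_of_maps_to h1]
  calc ∑ S ∈ Finset.powersetCard s (Finset.univ : Finset (Fin N)),
        ∑ τ ∈ ((Finset.univ : Finset (Equiv.Perm (Fin N))).filter (fun τ => τ.support.card = s)).filter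
          (fun τ => τ.support = S), s ^ (reps τ).card
      ≤ ∑ _S ∈ Finset.powersetCard s (Finset.univ : Finset (Fin N)), 4 ^ s * s.factorial := by
        refine Finset.sum_le_sum fun S hS => ?_
        have hc : S.card = s := (Finset.mem_powersetCard.1 hS).2
        have h2 := sum_reps s hs S
        rw [hc] at h2
        refine le_trans ?_ (h2.trans (prod_le s))
        refine Finset.sum_le_sum_of_subset ?_
        intro τ hτ
        exact Finset.mem_filter.2 ⟨Finset.mem_univ _, (Finset.mem_filter.1 hτ).2⟩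
    _ = 4 ^ s * (N.choose s * s.factorial) := by
        rw [Finset.sum_const, Finset.card_powersetCard, Finset.card_univ, Fintype.card_fin, smul_eq_mul]
        ring
    _ ≤ 4 ^ s * N ^ s := Nat.mul_le_mul_left _ (choose_fact_le N s)

theorem sum_supp (hN : Even N) (h18 : 18 ≤ N) (s : ℕ) (hs : 1 ≤ s) :
    ∑ τ ∈ (Finset.univ : Finset (Equiv.Perm (Fin N))).filter (fun τ => τ.support.card = s),
      (Nat.card {G : SimpleGraph (Fin N) // Cubic G ∧ IsAut G τ} : ℝ) ≤
        (KK * Real.sqrt (Real.sqrt s) / Real.sqrt N) ^ s * X N := by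
  have hN0 : (0 : ℝ) < N := by
    have : 0 < N := by omega
    exact_mod_cast this
  have hX := X_pos N
  have hs1 : (1 : ℝ) ≤ (s : ℝ) := by exact_mod_cast hs
  have hss : 1 ≤ Real.sqrt s := by
    rw [Real.one_le_sqrt]
    exact hs1
  have hsss : 1 ≤ Real.sqrt (Real.sqrt s) := by
    rw [Real.one_le_sqrt]
    exact hss
  set q : ℝ := Real.sqrt (18 / N) with hq
  have hq0 : 0 ≤ q := Real.sqrt_nonneg _
  set E : ℝ := 2 * Real.exp 19 with hE
  have hE1 : 1 ≤ E := by
    have := Real.add_one_le_exp (19 : ℝ)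
    rw [hE]
    linarith
  set u : ℝ := Real.sqrt (Real.sqrt s) with hu
  have hu0 : 0 ≤ u := by linarith
  have hterm : ∀ τ ∈ (Finset.univ : Finset (Equiv.Perm (Fin N))).filter (fun τ => τ.support.card = s),
      (Nat.card {G : SimpleGraph (Fin N) // Cubic G ∧ IsAut G τ} : ℝ) ≤
        q ^ (3 * s) * E ^ s * u ^ s * X N * ((s ^ (reps τ).card : ℕ) : ℝ) := by
    intro τ hτ
    have hc := (Finset.mem_filter.1 hτ).2
    have hne : τ.support.Nonempty := by
      rw [← Finset.card_pos]
      omega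
    have h1 := card_aut hN h18 τ hne
    rw [hc] at h1
    have h2 := two_reps τ
    rw [hc] at h2
    set c := (reps τ).card with hcc
    refine h1.trans ?_
    have e1 : E ^ c ≤ E ^ s := pow_le_pow_right₀ hE1 (by omega)
    have e2 : (Real.sqrt s) ^ (3 * c) ≤ (s : ℝ) ^ c * u ^ s := by
      have e3 : (Real.sqrt s) ^ (3 * c) = (s : ℝ) ^ c * u ^ (2 * c) := by
        have e4 : u ^ (2 * c) = (Real.sqrt s) ^ c := by
          rw [pow_mul, hu, Real.sq_sqrt (Real.sqrt_nonneg _)]
        have e5 : (s : ℝ) ^ c = (Real.sqrt s) ^ (2 * c) := by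
          rw [pow_mul, Real.sq_sqrt (by linarith)]
        rw [e4, e5, ← pow_add]
        congr 1
        ring
      rw [e3]
      refine mul_le_mul_of_nonneg_left ?_ (by positivity)
      exact pow_le_pow_right₀ hsss h2
    calc q ^ (3 * s) * E ^ c * (Real.sqrt s) ^ (3 * c) * X N
        ≤ q ^ (3 * s) * E ^ s * ((s : ℝ) ^ c * u ^ s) * X N := by
          refine mul_le_mul_of_nonneg_right ?_ hX.le
          refine mul_le_mul ?_ e2 (by positivity) (by positivity)
          exact mul_le_mul_of_nonneg_left e1 (by positivity)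
      _ = q ^ (3 * s) * E ^ s * u ^ s * X N * ((s ^ c : ℕ) : ℝ) := by
          push_cast
          ring
  refine (Finset.sum_le_sum hterm).trans ?_
  rw [← Finset.mul_sum, ← Nat.cast_sum]
  have h3 : ((∑ τ ∈ (Finset.univ : Finset (Equiv.Perm (Fin N))).filter (fun τ => τ.support.card = s),
      s ^ (reps τ).card : ℕ) : ℝ) ≤ 4 ^ s * (N : ℝ) ^ s := by
    exact_mod_cast au12_sum (N := N) s hs
  refine (mul_le_mul_of_nonneg_left h3 (by positivity)).trans (le_of_eq ?_)
  have h4 : q ^ 3 * N = 18 * Real.sqrt 18 / Real.sqrt N := by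
    have e1 : q ^ 2 = 18 / N := Real.sq_sqrt (by positivity)
    have e2 : q = Real.sqrt 18 / Real.sqrt N := by
      rw [hq, Real.sqrt_div (by norm_num)]
    calc q ^ 3 * N = q ^ 2 * N * q := by ring
      _ = 18 * q := by
        rw [e1]
        field_simp
      _ = _ := by
        rw [e2]
        ring
  have h5 : KK * u / Real.sqrt N = q ^ 3 * N * E * u * 4 := by
    rw [h4, KK, hE]
    ring
  rw [h5]
  simp only [mul_pow, ← pow_mul]
  ring

end Pool.Agent.H38H.AU
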