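import Pool.Agent.Lib.H38H.AU.Defs

/-!
Project H38H, chunk AU2 (M). At most one antipodal pair for every representative.
PROOF. The map `p ↦ p.1` is injective on `anti τ`: let `(r, v)`, `(r, v')` be in `anti τ`, `(τ ^ k) r = v`, `(τ ^ k) v = r`, `(τ ^ j) r = v'`, `(τ ^ j) v' = r`,
`v ≠ r`, `v' ≠ r`. Let `l` be the minimal period of `r` (`MulAction.period` or `Function.minimalPeriod`; `MulAction.zpow_smul_eq_iff_period_dvd`: `(τ ^ m) r = r` iff
`l ∣ m`). Then `l ∣ 2 k`, not `l ∣ k`, `l ∣ 2 j`, not `l ∣ j`, so `2 k = a l`, `2 j = b l` with `a`, `b` odd, `2 (k - j) = (a - b) l`, `l ∣ k - j` and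
`(τ ^ (k - j)) r = r`, `v = (τ ^ k) r = (τ ^ j) r = v'`.
-/

set_option autoImplicit false

namespace Pool.Agent.H38H.AU

open Classical

variable {N : ℕ}

theorem au2_int (l k j : ℤ) (h1 : l ∣ 2 * k) (h2 : ¬ l ∣ k) (h3 : l ∣ 2 * j) (h4 : ¬ l ∣ j) :
    l ∣ k - j := by
  obtain ⟨a, ha⟩ := h1
  obtain ⟨b, hb⟩ := h3
  rcases Int.even_or_odd a with ⟨c, hc⟩ | ⟨c, hc⟩
  · exfalso
    apply h2
    refine ⟨c, ?_⟩
    have : 2 * k = 2 * (l * c) := by rw [ha, hc]; ring
    omega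
  · rcases Int.even_or_odd b with ⟨d, hd⟩ | ⟨d, hd⟩
    · exfalso
      apply h4
      refine ⟨d, ?_⟩
      have : 2 * j = 2 * (l * d) := by rw [hb, hd]; ring
      omega
    · refine ⟨c - d, ?_⟩
      have : 2 * (k - j) = 2 * (l * (c - d)) := by
        rw [mul_sub, ha, hb, hc, hd]
        ring
      omega

theorem au2_iff (τ : Equiv.Perm (Fin N)) (r : Fin N) (m : ℤ) :
    (τ ^ m) r = r ↔ (MulAction.period τ r : ℤ) ∣ m :=
  MulAction.zpow_smul_eq_iff_period_dvd (j := m) (g := τ) (a := r)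

theorem anti_card (τ : Equiv.Perm (Fin N)) : (anti τ).card ≤ (reps τ).card := by
  refine Finset.card_le_card_of_injOn Prod.fst ?_ ?_
  · intro p hp
    exact (mem_anti.1 hp).1
  · rintro ⟨r, v⟩ hp ⟨r', v'⟩ hp' h
    have h' : r = r' := h
    subst h'
    have hp1 := (mem_anti.1 hp).2
    have hp2 := (mem_anti.1 hp').2
    obtain ⟨hv, k, hk1, hk2⟩ := hp1
    obtain ⟨hv', j, hj1, hj2⟩ := hp2
    simp only at hv hv' hk1 hk2 hj1 hj2
    have a1 : (MulAction.period τ r : ℤ) ∣ 2 * k := by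
      rw [← au2_iff, two_mul, zpow_add, Equiv.Perm.mul_apply, hk1, hk2]
    have a2 : ¬ (MulAction.period τ r : ℤ) ∣ k := by
      rw [← au2_iff, hk1]
      exact hv
    have a3 : (MulAction.period τ r : ℤ) ∣ 2 * j := by
      rw [← au2_iff, two_mul, zpow_add, Equiv.Perm.mul_apply, hj1, hj2]
    have a4 : ¬ (MulAction.period τ r : ℤ) ∣ j := by
      rw [← au2_iff, hj1]
      exact hv'
    have a5 := au2_int _ k j a1 a2 a3 a4
    rw [← au2_iff] at a5
    have a6 : v = v' := by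
      rw [← hk1, ← hj1]
      have e : k = j + (k - j) := by ring
      rw [e, zpow_add, Equiv.Perm.mul_apply, a5]
    rw [a6]

end Pool.Agent.H38H.AU
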