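import Pool.Agent.Lib.H38H.AU.Defs

/-!
Project H38H, chunk AU3 (S). Equivalence of pairs, transversals.
-/

set_option autoImplicit false

namespace Pool.Agent.H38H.AU

open Classical

variable {N : ℕ}

/-- PROOF. k = 0; -k; sum of the exponents. `Sym2.map (τ ^ k)` of the equality (`Sym2.map_mk`, or `Sym2.eq_iff` and cases). -/
theorem sim_equiv (τ : Equiv.Perm (Fin N)) : Equivalence (Sim τ) := by
  have key : ∀ (k l : ℤ) (x : Fin N), (τ ^ (k + l)) x = (τ ^ k) ((τ ^ l) x) := fun k l x => by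
    rw [zpow_add]; rfl
  have key0 : ∀ (k : ℤ) (x : Fin N), (τ ^ (-k)) ((τ ^ k) x) = x := fun k x => by
    rw [← key, neg_add_cancel, zpow_zero]; rfl
  refine ⟨fun p => ⟨0, by simp⟩, ?_, ?_⟩
  · rintro p q ⟨k, hk⟩
    refine ⟨-k, ?_⟩
    rcases Sym2.eq_iff.1 hk with ⟨h1, h2⟩ | ⟨h1, h2⟩
    · rw [h1, h2, key0, key0]
    · rw [h1, h2, key0, key0, Sym2.eq_swap]
  · rintro p q r ⟨k, hk⟩ ⟨l, hl⟩
    refine ⟨l + k, ?_⟩
    rw [hl, key, key]
    rcases Sym2.eq_iff.1 hk with ⟨h1, h2⟩ | ⟨h1, h2⟩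
    · rw [h1, h2]
    · rw [h1, h2, Sym2.eq_swap]

/-- PROOF. The image of `P` under a function which maps every element of `P` to a fixed representative in `P` of its class, e.g.
`f p = Classical.choose (∃ q ∈ P, r p q)` composed with `Quotient.out`-style choice on the quotient. -/
theorem exists_transversal {α : Type} (r : α → α → Prop) (hr : Equivalence r) (P : Finset α) :
    ∃ M ⊆ P, (∀ p ∈ P, ∃ m ∈ M, r m p) ∧ ∀ m ∈ M, ∀ m' ∈ M, r m m' → m = m' := by
  induction P using Finset.induction_on with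
  | empty => exact ⟨∅, subset_rfl, by simp, by simp⟩
  | insert a P ha ih =>
    obtain ⟨M, hM, h1, h2⟩ := ih
    by_cases h : ∃ m ∈ M, r m a
    · refine ⟨M, hM.trans (Finset.subset_insert _ _), fun p hp => ?_, h2⟩
      rcases Finset.mem_insert.1 hp with rfl | hp
      · exact h
      · exact h1 p hp
    · push Not at h
      refine ⟨insert a M, Finset.insert_subset_insert _ hM, fun p hp => ?_, fun m hm m' hm' hmm => ?_⟩
      · rcases Finset.mem_insert.1 hp with rfl | hp
        · exact ⟨p, Finset.mem_insert_self _ _, hr.refl p⟩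
        · obtain ⟨m, hm, hmp⟩ := h1 p hp
          exact ⟨m, Finset.mem_insert_of_mem hm, hmp⟩
      · rcases Finset.mem_insert.1 hm with h3 | h3 <;> rcases Finset.mem_insert.1 hm' with h4 | h4
        · rw [h3, h4]
        · exact absurd (hr.symm (h3 ▸ hmm)) (h _ h4)
        · exact absurd (h4 ▸ hmm) (h _ h3)
        · exact h2 _ h3 _ h4 hmm

end Pool.Agent.H38H.AU
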