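import Pool.Agent.Lib.H38H.AU.AU1
import Pool.Agent.Lib.H38H.AU.AU3

/-!
Project H38H, chunk AU4 (M). Orbits with two elements in `dts`.
-/

set_option autoImplicit false

namespace Pool.Agent.H38H.AU

open Classical

variable {N : ℕ}

/-- PROOF. Sum over `r ∈ reps τ` of the number of neighbours (3) of `r` (`Finset.card_eq_sum_card_fiberwise` with the map `Prod.fst`, or
`Finset.card_sigma` after a bijection). -/
theorem dts_card {G : SimpleGraph (Fin N)} (hG : Cubic G) (τ : Equiv.Perm (Fin N)) :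
    (dts G τ).card = 3 * (reps τ).card := by
  have h1 : ∀ r : Fin N, (Finset.univ.filter fun v => G.Adj r v).card = 3 := by
    intro r
    rw [← hG r, ← Set.ncard_coe_finset]
    congr 1
    ext v
    simp
  have h2 : (dts G τ).card = ∑ r ∈ reps τ, (Finset.univ.filter fun v => G.Adj r v).card := by
    unfold dts
    rw [Finset.card_filter, Finset.sum_product]
    refine Finset.sum_congr rfl fun r _ => ?_
    rw [Finset.card_filter]
  rw [h2, Finset.sum_congr rfl fun r _ => h1 r, Finset.sum_const, smul_eq_mul, mul_comm]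

private theorem au4_partner {G : SimpleGraph (Fin N)} {τ : Equiv.Perm (Fin N)} (hτ : IsAut G τ)
    (m : Fin N × Fin N) (hm : m ∈ dts G τ) (h1 : τ m.2 ≠ m.2) (h2 : ¬ Anti τ m) :
    ∃ m' ∈ dts G τ, Sim τ m m' ∧ m' ≠ m := by
  obtain ⟨r, v⟩ := m
  rw [mem_dts] at hm
  obtain ⟨hr, hadj⟩ := hm
  simp only at hr hadj h1
  obtain ⟨r', hr', k, hk⟩ := exists_rep τ v h1
  have e1 : (τ ^ k) ((τ ^ (-k)) r) = r := by
    rw [← Equiv.Perm.mul_apply, ← zpow_add, add_neg_cancel, zpow_zero, Equiv.Perm.one_apply]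
  have e2 : (τ ^ (-k)) v = r' := by
    rw [← hk, ← Equiv.Perm.mul_apply, ← zpow_add, neg_add_cancel, zpow_zero, Equiv.Perm.one_apply]
  refine ⟨(r', (τ ^ (-k)) r), ?_, ⟨-k, ?_⟩, ?_⟩
  · rw [mem_dts]
    refine ⟨hr', ?_⟩
    simp only
    rw [← aut_zpow hτ k, hk, e1]
    exact hadj.symm
  · simp only
    rw [e2, Sym2.eq_swap]
  · intro h
    rw [Prod.mk.injEq] at h
    obtain ⟨h3, h4⟩ := h
    apply h2
    refine ⟨hadj.ne', -k, h4, ?_⟩
    simp only
    rw [e2, h3]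

/-- PROOF. For `m = (r, v) ∈ M` with `τ v ≠ v` and not `Anti τ m`: `v = (τ ^ k) r'`, `r' ∈ reps τ` (exists_rep), `m' = (r', (τ ^ (-k)) r)` is in `dts G τ` (aut_zpow, symmetry),
`Sim τ m m'`, and `m' ≠ m` (otherwise `r' = r`, `v = (τ ^ k) r` and `(τ ^ (-k)) r = v`, so `(τ ^ k) v = r`; `v ≠ r` since they are adjacent; so `Anti τ m`). `m' ∉ M` (hM and `m' ≠ m`), and
`m ↦ m'` is injective (if `m' = n'` then `Sim τ m n`, so `m = n`). So `M` and the image of `m ↦ m'` are disjoint subsets of `dts G τ`. -/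
theorem card_second {G : SimpleGraph (Fin N)} {τ : Equiv.Perm (Fin N)} (hτ : IsAut G τ)
    (M : Finset (Fin N × Fin N)) (hMP : M ⊆ dts G τ)
    (hM : ∀ m ∈ M, ∀ m' ∈ M, Sim τ m m' → m = m') :
    M.card + (M.filter fun m => τ m.2 ≠ m.2 ∧ ¬ Anti τ m).card ≤ (dts G τ).card := by
  have H : ∀ m ∈ M.filter (fun m => τ m.2 ≠ m.2 ∧ ¬ Anti τ m),
      ∃ m', m' ∈ dts G τ ∧ Sim τ m m' ∧ m' ≠ m := by
    intro m hm
    rw [Finset.mem_filter] at hm
    obtain ⟨m', h1, h2, h3⟩ := au4_partner hτ m (hMP hm.1) hm.2.1 hm.2.2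
    exact ⟨m', h1, h2, h3⟩
  choose! φ hφ using H
  have hS : ∀ m ∈ M.filter (fun m => τ m.2 ≠ m.2 ∧ ¬ Anti τ m), m ∈ M :=
    fun m hm => (Finset.mem_filter.mp hm).1
  have hinj : Set.InjOn φ ↑(M.filter (fun m => τ m.2 ≠ m.2 ∧ ¬ Anti τ m)) := by
    intro m hm n hn hmn
    rw [Finset.mem_coe] at hm hn
    have h1 := (hφ m hm).2.1
    have h2 := (hφ n hn).2.1
    rw [← hmn] at h2
    exact hM m (hS m hm) n (hS n hn) ((sim_equiv τ).trans h1 ((sim_equiv τ).symm h2))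
  have hdis : Disjoint M ((M.filter (fun m => τ m.2 ≠ m.2 ∧ ¬ Anti τ m)).image φ) := by
    rw [Finset.disjoint_right]
    intro x hx hxM
    obtain ⟨m, hm, rfl⟩ := Finset.mem_image.mp hx
    exact (hφ m hm).2.2 (hM m (hS m hm) (φ m) hxM (hφ m hm).2.1).symm
  rw [← Finset.card_image_of_injOn hinj, ← Finset.card_union_of_disjoint hdis]
  apply Finset.card_le_card
  apply Finset.union_subset hMP
  intro x hx
  obtain ⟨m, hm, rfl⟩ := Finset.mem_image.mp hx
  exact (hφ m hm).1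

end Pool.Agent.H38H.AU
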