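import Pool.Agent.Lib.H38H.AU.AU1
import Pool.Agent.Lib.H38H.AU.AU3

/-!
Project H38H, chunk AU5 (S/M). The edges meeting the support are generated by a transversal.
-/

set_option autoImplicit false

namespace Pool.Agent.H38H.AU

open Classical

variable {N : ℕ}

/-- PROOF. aut_zpow. -/
theorem gen_sub {G : SimpleGraph (Fin N)} {τ : Equiv.Perm (Fin N)} (hτ : IsAut G τ)
    (M : Finset (Fin N × Fin N)) (hMP : M ⊆ dts G τ) : ∀ e ∈ gen τ M, e ∈ G.edgeSet := by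
  intro e he
  obtain ⟨p, hp, k, rfl⟩ := mem_gen.1 he
  rw [SimpleGraph.mem_edgeSet, aut_zpow hτ]
  exact (mem_dts.1 (hMP hp)).2

/-- PROOF. `u = (τ ^ k) r` with `r ∈ reps τ` (exists_rep), `p = (r, (τ ^ (-k)) v) ∈ dts G τ` (aut_zpow), `Sim τ m p` for an `m ∈ M`; apply `τ ^ k`. -/
theorem sub_gen {G : SimpleGraph (Fin N)} {τ : Equiv.Perm (Fin N)} (hτ : IsAut G τ)
    (M : Finset (Fin N × Fin N)) (hM : ∀ p ∈ dts G τ, ∃ m ∈ M, Sim τ m p) (u v : Fin N)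
    (h : G.Adj u v) (hu : τ u ≠ u) : s(u, v) ∈ gen τ M := by
  obtain ⟨r, hr, k, hk⟩ := exists_rep τ u hu
  have hv : (τ ^ k) ((τ ^ (-k)) v) = v := by
    rw [← Equiv.Perm.mul_apply, ← zpow_add]
    simp
  have hadj : G.Adj r ((τ ^ (-k)) v) := by
    rw [← aut_zpow hτ k, hk, hv]
    exact h
  obtain ⟨m, hm, j, hj⟩ := hM (r, (τ ^ (-k)) v) (mem_dts.2 ⟨hr, hadj⟩)
  refine mem_gen.2 ⟨m, hm, k + j, ?_⟩
  have h1 := congrArg (Sym2.map (τ ^ k)) hj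
  simp only [Sym2.map_mk] at h1
  rw [hk, hv] at h1
  rw [h1, zpow_add, Equiv.Perm.mul_apply, Equiv.Perm.mul_apply]

end Pool.Agent.H38H.AU
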