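import Pool.Agent.Lib.H38H.AU.AU1

/-!
Project H38H, chunk AU6 (M). Double counting of the edges which meet the support.
PROOF. Let `S = τ.support`. Dd = set of the pairs `(u, v)` with `G.Adj u v` and (`u ∈ S` or `v ∈ S`). (a) `Dd.card ≤ 2 * E.card`: map `(u, v)` to `s(u, v) ∈ E` (hE, symmetry); every fibre has at
most two elements (`Finset.card_le_mul_card_image`). (b) Dd contains the pairs with `u ∈ S` (`3 * S.card` of them, G cubic), and, disjoint from these, the pairs `(w, r)` and `(w, τ r)` for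
`(r, w) ∈ A`: `w ∉ S`, `G.Adj w r`, `G.Adj w (τ r)` because `τ w = w` (hτ). These are `2 * A.card` different pairs: `(w, r) = (w', τ r')` gives `r = τ r'`, so `r = r'`
(rep_unique) and `τ r = r`, impossible.
-/

set_option autoImplicit false

namespace Pool.Agent.H38H.AU

open Classical

variable {N : ℕ}

theorem au6_deg {G : SimpleGraph (Fin N)} (hG : Cubic G) (u : Fin N) :
    (Finset.univ.filter fun v => G.Adj u v).card = 3 := by
  have h1 : ((Finset.univ.filter fun v => G.Adj u v : Finset (Fin N)) : Set (Fin N)) =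
      G.neighborSet u := by
    ext v
    simp
  rw [← hG u, ← h1, Set.ncard_coe_finset]

theorem three_supp {G : SimpleGraph (Fin N)} (hG : Cubic G) {τ : Equiv.Perm (Fin N)} (hτ : IsAut G τ)
    (A : Finset (Fin N × Fin N)) (hA : ∀ p ∈ A, p.1 ∈ reps τ ∧ G.Adj p.1 p.2 ∧ τ p.2 = p.2)
    (E : Finset (Sym2 (Fin N))) (hE : ∀ u v, G.Adj u v → τ u ≠ u → s(u, v) ∈ E) :
    3 * τ.support.card + 2 * A.card ≤ 2 * E.card := by
  set Dd : Finset (Fin N × Fin N) :=
    Finset.univ.filter fun p => G.Adj p.1 p.2 ∧ (τ p.1 ≠ p.1 ∨ τ p.2 ≠ p.2) with hDd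
  set D1 : Finset (Fin N × Fin N) :=
    Finset.univ.filter fun p => G.Adj p.1 p.2 ∧ τ p.1 ≠ p.1 with hD1
  set D2 : Finset (Fin N × Fin N) := A.image fun p => (p.2, p.1) with hD2
  set D3 : Finset (Fin N × Fin N) := A.image fun p => (p.2, τ p.1) with hD3
  have hc1 : D1.card = 3 * τ.support.card := by
    rw [Finset.card_eq_sum_card_fiberwise (f := Prod.fst) (t := τ.support)]
    · have h1 : ∀ u ∈ τ.support, (D1.filter fun p => p.1 = u).card = 3 := by
        intro u hu
        have h2 : D1.filter (fun p => p.1 = u) =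
            (Finset.univ.filter fun v => G.Adj u v).image fun v => (u, v) := by
          ext ⟨a, b⟩
          simp only [hD1, Finset.mem_filter, Finset.mem_univ, true_and, Finset.mem_image,
            Prod.mk.injEq]
          constructor
          · rintro ⟨⟨h3, h4⟩, rfl⟩
            exact ⟨b, h3, rfl, rfl⟩
          · rintro ⟨v, h3, rfl, rfl⟩
            exact ⟨⟨h3, Equiv.Perm.mem_support.1 hu⟩, rfl⟩
        rw [h2, Finset.card_image_of_injective _ fun a b hab => (Prod.mk.inj hab).2, au6_deg hG u]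
      rw [Finset.sum_congr rfl h1, Finset.sum_const, smul_eq_mul, mul_comm]
    · intro p hp
      have h3 := (Finset.mem_filter.1 hp).2.2
      exact Equiv.Perm.mem_support.2 h3
  have hc2 : D2.card = A.card := by
    rw [hD2, Finset.card_image_of_injective]
    intro a b hab
    exact Prod.ext (Prod.mk.inj hab).2 (Prod.mk.inj hab).1
  have hc3 : D3.card = A.card := by
    rw [hD3, Finset.card_image_of_injective]
    intro a b hab
    exact Prod.ext (τ.injective (Prod.mk.inj hab).2) (Prod.mk.inj hab).1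
  have d12 : Disjoint D1 D2 := by
    rw [Finset.disjoint_left]
    intro p h1 h2
    obtain ⟨a, ha, rfl⟩ := Finset.mem_image.1 h2
    exact (Finset.mem_filter.1 h1).2.2 (hA a ha).2.2
  have d13 : Disjoint D1 D3 := by
    rw [Finset.disjoint_left]
    intro p h1 h2
    obtain ⟨a, ha, rfl⟩ := Finset.mem_image.1 h2
    exact (Finset.mem_filter.1 h1).2.2 (hA a ha).2.2
  have d23 : Disjoint D2 D3 := by
    rw [Finset.disjoint_left]
    intro p h1 h2
    obtain ⟨a, ha, rfl⟩ := Finset.mem_image.1 h1
    obtain ⟨b, hb, h3⟩ := Finset.mem_image.1 h2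
    have h4 : τ b.1 = a.1 := (Prod.mk.inj h3).2
    have h5 : b.1 = a.1 := rep_unique τ (hA b hb).1 (hA a ha).1 1 (by rw [zpow_one]; exact h4)
    rw [h5] at h4
    exact (mem_reps.1 (hA a ha).1).1 h4
  have hsub : D1 ∪ D2 ∪ D3 ⊆ Dd := by
    intro p hp
    rw [Finset.mem_union, Finset.mem_union] at hp
    rw [hDd, Finset.mem_filter]
    refine ⟨Finset.mem_univ _, ?_⟩
    rcases hp with (hp | hp) | hp
    · have h1 := (Finset.mem_filter.1 hp).2
      exact ⟨h1.1, Or.inl h1.2⟩
    · obtain ⟨a, ha, rfl⟩ := Finset.mem_image.1 hp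
      exact ⟨(hA a ha).2.1.symm, Or.inr (mem_reps.1 (hA a ha).1).1⟩
    · obtain ⟨a, ha, rfl⟩ := Finset.mem_image.1 hp
      refine ⟨?_, Or.inr fun h => (mem_reps.1 (hA a ha).1).1 (τ.injective h)⟩
      have h1 := (hτ a.1 a.2).2 (hA a ha).2.1
      rw [(hA a ha).2.2] at h1
      exact h1.symm
  have h3 : 3 * τ.support.card + 2 * A.card ≤ Dd.card := by
    refine le_trans (le_of_eq ?_) (Finset.card_le_card hsub)
    rw [Finset.card_union_of_disjoint, Finset.card_union_of_disjoint d12, hc1, hc2, hc3]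
    · ring
    · rw [Finset.disjoint_union_left]
      exact ⟨d13, d23⟩
  refine h3.trans ?_
  refine Finset.card_le_mul_card_image_of_maps_to (f := fun p : Fin N × Fin N => s(p.1, p.2)) ?_ 2 ?_
  · intro p hp
    obtain ⟨-, h4, h5⟩ := Finset.mem_filter.1 hp
    rcases h5 with h5 | h5
    · exact hE _ _ h4 h5
    · have h6 := hE _ _ h4.symm h5
      rw [Sym2.eq_swap] at h6
      exact h6
  · intro e _
    induction e using Sym2.ind with
    | _ a b =>
      refine (Finset.card_le_card (t := {(a, b), (b, a)}) ?_).trans Finset.card_le_two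
      intro p hp
      have h4 : s(p.1, p.2) = s(a, b) := (Finset.mem_filter.1 hp).2
      rw [Sym2.eq_iff] at h4
      rw [Finset.mem_insert, Finset.mem_singleton]
      rcases h4 with ⟨h5, h6⟩ | ⟨h5, h6⟩
      · exact Or.inl (Prod.ext h5 h6)
      · exact Or.inr (Prod.ext h5 h6)

end Pool.Agent.H38H.AU
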