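import Pool.Agent.Lib.H38H.AU.AU4
import Pool.Agent.Lib.H38H.AU.AU5
import Pool.Agent.Lib.H38H.AU.AU6

/-!
Project H38H, chunk AU7 (S/M). Every cubic graph with the automorphism `τ` has a code.
PROOF. `M` = transversal of `dts G τ` for `Sim τ` (exists_transversal, sim_equiv). `A` = elements of `M` with `τ p.2 = p.2`, `B` = elements with `τ p.2 ≠ p.2` not antipodal, `D` = elements with
`τ p.2 ≠ p.2`, antipodal. `A ∪ B ∪ D = M`. small: `2 |B| ≤ |M| + |B| ≤ |dts| = 3 |reps|` (card_second, dts_card). big: three_supp with E = gen τ M, sub_gen.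
-/

set_option autoImplicit false

namespace Pool.Agent.H38H.AU

open Classical

variable {N : ℕ}

theorem exists_good {G : SimpleGraph (Fin N)} (hG : Cubic G) {τ : Equiv.Perm (Fin N)} (hτ : IsAut G τ) :
    ∃ A B D : Finset (Fin N × Fin N), Good τ A B D ∧ ∀ e ∈ gen τ (A ∪ B ∪ D), e ∈ G.edgeSet := by
  obtain ⟨M, hMP, hM1, hM2⟩ := exists_transversal (Sim τ) (sim_equiv τ) (dts G τ)
  set A := M.filter fun p => τ p.2 = p.2 with hA
  set B := M.filter fun p => τ p.2 ≠ p.2 ∧ ¬ Anti τ p with hB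
  set D := M.filter fun p => τ p.2 ≠ p.2 ∧ Anti τ p with hD
  have hM : A ∪ B ∪ D = M := by
    ext p
    simp only [hA, hB, hD, Finset.mem_union, Finset.mem_filter]
    tauto
  refine ⟨A, B, D, ⟨?_, ?_, ?_, ?_, ?_⟩, ?_⟩
  · intro p hp
    have h1 := mem_dts.1 (hMP (Finset.mem_filter.1 hp).1)
    exact Finset.mem_product.2 ⟨h1.1, Finset.mem_univ _⟩
  · intro p hp
    have h1 := mem_dts.1 (hMP (Finset.mem_filter.1 hp).1)
    exact Finset.mem_product.2 ⟨h1.1, Equiv.Perm.mem_support.2 (Finset.mem_filter.1 hp).2.1⟩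
  · intro p hp
    have h1 := mem_dts.1 (hMP (Finset.mem_filter.1 hp).1)
    exact mem_anti.2 ⟨h1.1, (Finset.mem_filter.1 hp).2.2⟩
  · have h1 := card_second hτ M hMP hM2
    rw [dts_card hG τ] at h1
    have h2 : B.card ≤ M.card := Finset.card_le_card (Finset.filter_subset _ _)
    have h3 : B.card = (M.filter fun m => τ m.2 ≠ m.2 ∧ ¬ Anti τ m).card := rfl
    omega
  · rw [hM]
    refine three_supp hG hτ A ?_ (gen τ M) fun u v h hu => sub_gen hτ M hM1 u v h hu
    intro p hp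
    have h1 := mem_dts.1 (hMP (Finset.mem_filter.1 hp).1)
    exact ⟨h1.1, h1.2, (Finset.mem_filter.1 hp).2⟩
  · rw [hM]
    exact gen_sub hτ M hMP

end Pool.Agent.H38H.AU
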