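import Pool.Agent.Lib.H38H.AU.AU1
import Pool.Agent.Lib.H38H.AU.AU2
import Pool.Agent.Lib.H38H.AU.AU7
import Pool.Agent.Lib.H38H.PR

/-!
Project H38H, chunk AU8 (M). The number of cubic graphs with a given automorphism.
PROOF. `c = |reps τ|`, `s = |support|`, `q = sqrt (18 / N)`, `q ≤ 1`. By exists_good the graphs are in the union over the triples `(A, B, D)` which are `Good` of the sets
`{G | Cubic G ∧ gen τ (A ∪ B ∪ D) ⊆ edges}`; each has at most `(18 / N) ^ |gen| X N = q ^ (2 |gen|) X N ≤ q ^ (3 s + 2 |A|) X N` elements (card_cubic_edges; `q ≤ 1`, big).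
Sum over all `A ⊆ reps τ × univ`, `B ⊆ reps τ × support` with `2 |B| ≤ 3 c`, `D ⊆ anti τ`. The sum factorises (`Finset.sum_product`, or bound the indicator of `2 |B| ≤ 3 c` by
`(sqrt s) ^ (3 c) * (1 / s) ^ |B|`, as `s ≥ 1`: `(1 / s) ^ |B| = (1 / sqrt s) ^ (2 |B|) ≥ (1 / sqrt s) ^ (3 c)`). With `Finset.sum_pow_mul_eq_add_pow`
(`∑ A ∈ T.powerset, x ^ |A| = (1 + x) ^ |T|`): the sum over A is `(1 + 18 / N) ^ (c N) ≤ exp (18 c)` (`Real.add_one_le_exp`), the sum over B is at most `(sqrt s) ^ (3 c) (1 + 1 / s) ^ (c s) ≤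
(sqrt s) ^ (3 c) exp c`, the number of D is at most `2 ^ c` (anti_card). exp (19 c) 2^c = (2 exp 19)^c.
-/

set_option autoImplicit false

namespace Pool.Agent.H38H.AU

open Classical

variable {N : ℕ}

theorem sum_powerset_pow {α : Type} (T : Finset α) (x : ℝ) :
    ∑ A ∈ T.powerset, x ^ A.card = (1 + x) ^ T.card := by
  have h := Finset.sum_pow_mul_eq_add_pow x 1 T
  simp only [one_pow, mul_one] at h
  rw [h, add_comm]

private theorem au8_exp (x : ℝ) (hx : 0 ≤ x) (c n : ℕ) (hn : 0 < n) :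
    (1 + x / n) ^ (c * n) ≤ Real.exp (c * x) := by
  have hn' : (0 : ℝ) < n := by exact_mod_cast hn
  have h : 1 + x / n ≤ Real.exp (x / n) := by
    rw [add_comm]
    exact Real.add_one_le_exp _
  calc (1 + x / n) ^ (c * n) ≤ (Real.exp (x / n)) ^ (c * n) := pow_le_pow_left₀ (by positivity) h _
    _ = Real.exp (((c * n : ℕ) : ℝ) * (x / n)) := (Real.exp_nat_mul _ _).symm
    _ = Real.exp (c * x) := by
        congr 1
        push_cast
        field_simp

private theorem au8_count {α : Type} (c s : ℕ) (hs : 1 ≤ s) (T : Finset α) (hT : T.card = c * s) :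
    ((T.powerset.filter fun B => 2 * B.card ≤ 3 * c).card : ℝ) ≤
      (Real.sqrt s) ^ (3 * c) * Real.exp c := by
  have hs' : (1 : ℝ) ≤ s := by exact_mod_cast hs
  have hq : 1 ≤ Real.sqrt s := Real.one_le_sqrt.mpr hs'
  have hq0 : 0 < Real.sqrt s := by linarith
  have h1 : ∀ B ∈ T.powerset.filter (fun B => 2 * B.card ≤ 3 * c),
      (1 : ℝ) ≤ (Real.sqrt s) ^ (3 * c) * (1 / (s : ℝ)) ^ B.card := by
    intro B hB
    have h2 := (Finset.mem_filter.mp hB).2
    have h3 : (1 / (s : ℝ)) ^ B.card * (Real.sqrt s) ^ (2 * B.card) = 1 := by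
      rw [pow_mul, Real.sq_sqrt (by linarith), ← mul_pow, one_div, inv_mul_cancel₀ (by linarith), one_pow]
    have h4 : (Real.sqrt s) ^ (2 * B.card) ≤ (Real.sqrt s) ^ (3 * c) := pow_le_pow_right₀ hq h2
    calc (1 : ℝ) = (1 / (s : ℝ)) ^ B.card * (Real.sqrt s) ^ (2 * B.card) := h3.symm
      _ ≤ (1 / (s : ℝ)) ^ B.card * (Real.sqrt s) ^ (3 * c) :=
          mul_le_mul_of_nonneg_left h4 (by positivity)
      _ = _ := mul_comm _ _
  calc ((T.powerset.filter fun B => 2 * B.card ≤ 3 * c).card : ℝ)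
      = ∑ B ∈ T.powerset.filter (fun B => 2 * B.card ≤ 3 * c), (1 : ℝ) := by
        rw [Finset.sum_const, nsmul_eq_mul, mul_one]
    _ ≤ ∑ B ∈ T.powerset.filter (fun B => 2 * B.card ≤ 3 * c),
          (Real.sqrt s) ^ (3 * c) * (1 / (s : ℝ)) ^ B.card := Finset.sum_le_sum h1
    _ ≤ ∑ B ∈ T.powerset, (Real.sqrt s) ^ (3 * c) * (1 / (s : ℝ)) ^ B.card :=
        Finset.sum_le_sum_of_subset_of_nonneg (Finset.filter_subset _ _)
          fun B _ _ => by positivity
    _ = (Real.sqrt s) ^ (3 * c) * (1 + 1 / (s : ℝ)) ^ (c * s) := by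
        rw [← Finset.mul_sum, sum_powerset_pow, hT]
    _ ≤ (Real.sqrt s) ^ (3 * c) * Real.exp c := by
        apply mul_le_mul_of_nonneg_left _ (by positivity)
        have := au8_exp 1 zero_le_one c s (by omega)
        rwa [mul_one] at this

theorem card_aut (hN : Even N) (h18 : 18 ≤ N) (τ : Equiv.Perm (Fin N)) (hs : τ.support.Nonempty) :
    (Nat.card {G : SimpleGraph (Fin N) // Cubic G ∧ IsAut G τ} : ℝ) ≤
      (Real.sqrt (18 / N)) ^ (3 * τ.support.card) * (2 * Real.exp 19) ^ (reps τ).card *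
        (Real.sqrt τ.support.card) ^ (3 * (reps τ).card) * X N := by
  have hfin : Fintype (SimpleGraph (Fin N)) := Fintype.ofFinite _
  have hN0 : (0 : ℝ) < N := by
    have : (18 : ℝ) ≤ N := by exact_mod_cast h18
    linarith
  have hX : 0 ≤ X N := by unfold X; positivity
  obtain ⟨c, hc⟩ : ∃ c, c = (reps τ).card := ⟨_, rfl⟩
  obtain ⟨s, hs1⟩ : ∃ s, s = τ.support.card := ⟨_, rfl⟩
  obtain ⟨q, hq⟩ : ∃ q : ℝ, q = Real.sqrt (18 / N) := ⟨_, rfl⟩
  have hq0 : 0 ≤ q := hq ▸ Real.sqrt_nonneg _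
  have hq2 : q ^ 2 = 18 / N := by
    rw [hq, Real.sq_sqrt (by positivity)]
  have hq1 : q ≤ 1 := by
    rw [hq]
    apply Real.sqrt_le_one.mpr
    rw [div_le_one hN0]
    exact_mod_cast h18
  obtain ⟨PA, hPA⟩ : ∃ PA, PA = (reps τ ×ˢ (Finset.univ : Finset (Fin N))).powerset := ⟨_, rfl⟩
  obtain ⟨PB, hPB⟩ : ∃ PB, PB = ((reps τ ×ˢ τ.support).powerset.filter fun B => 2 * B.card ≤ 3 * c) :=
    ⟨_, rfl⟩
  obtain ⟨PD, hPD⟩ : ∃ PD, PD = (anti τ).powerset := ⟨_, rfl⟩
  obtain ⟨S, hS⟩ : ∃ S : Finset (SimpleGraph (Fin N)), S = Finset.univ.filter (fun G => Cubic G ∧ IsAut G τ) :=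
    ⟨_, rfl⟩
  obtain ⟨U, hU⟩ : ∃ U : Finset (Fin N × Fin N) × Finset (Fin N × Fin N) × Finset (Fin N × Fin N) →
      Finset (SimpleGraph (Fin N)), ∀ t, U t = Finset.univ.filter (fun G => Cubic G ∧
        ∀ e ∈ gen τ (t.1 ∪ t.2.1 ∪ t.2.2), e ∈ G.edgeSet) := ⟨_, fun _ => rfl⟩
  obtain ⟨TT, hTT⟩ : ∃ TT, TT = (PA ×ˢ PB ×ˢ PD).filter (fun t => Good τ t.1 t.2.1 t.2.2) := ⟨_, rfl⟩
  have hsub : S ⊆ TT.biUnion U := by
    intro G hG
    rw [hS, Finset.mem_filter] at hG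
    obtain ⟨A, B, D, hg, he⟩ := exists_good hG.2.1 hG.2.2
    rw [Finset.mem_biUnion]
    refine ⟨(A, B, D), ?_, ?_⟩
    · rw [hTT, Finset.mem_filter]
      refine ⟨?_, hg⟩
      rw [Finset.mem_product, Finset.mem_product, hPA, hPB, hPD, Finset.mem_powerset, Finset.mem_filter,
        Finset.mem_powerset, Finset.mem_powerset]
      exact ⟨hg.hA, ⟨hg.hB, hc ▸ hg.small⟩, hg.hD⟩
    · rw [hU, Finset.mem_filter]
      exact ⟨Finset.mem_univ _, hG.2.1, he⟩
  have hterm : ∀ t ∈ TT, ((U t).card : ℝ) ≤ q ^ (3 * s) * (18 / (N : ℝ)) ^ t.1.card * X N := by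
    intro t ht
    rw [hTT, Finset.mem_filter] at ht
    have hg := ht.2
    have h1 : (U t).card = Nat.card {G : SimpleGraph (Fin N) // Cubic G ∧
        ∀ e ∈ gen τ (t.1 ∪ t.2.1 ∪ t.2.2), e ∈ G.edgeSet} := by
      rw [Nat.card_eq_fintype_card, Fintype.card_subtype, hU]
    have h2 := card_cubic_edges (V := Fin N) (by rw [Fintype.card_fin]; exact hN)
      (gen τ (t.1 ∪ t.2.1 ∪ t.2.2))
    rw [Fintype.card_fin, ← h1] at h2
    refine h2.trans ?_
    apply mul_le_mul_of_nonneg_right _ hX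
    rw [← hq2, ← pow_mul, ← pow_mul, ← pow_add]
    apply pow_le_pow_of_le_one hq0 hq1
    have := hg.big
    omega
  have hsum : (∑ t ∈ PA ×ˢ PB ×ˢ PD, q ^ (3 * s) * (18 / (N : ℝ)) ^ t.1.card * X N) =
      q ^ (3 * s) * (1 + 18 / (N : ℝ)) ^ (c * N) * (PB.card * PD.card) * X N := by
    rw [Finset.sum_product]
    have h1 : ∀ A ∈ PA, (∑ y ∈ PB ×ˢ PD, q ^ (3 * s) * (18 / (N : ℝ)) ^ ((A, y) : Finset (Fin N × Fin N) ×
        Finset (Fin N × Fin N) × Finset (Fin N × Fin N)).1.card * X N) =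
        (q ^ (3 * s) * (PB.card * PD.card) * X N) * (18 / (N : ℝ)) ^ A.card := by
      intro A _
      simp only []
      rw [Finset.sum_const, nsmul_eq_mul, Finset.card_product]
      push_cast
      ring
    rw [Finset.sum_congr rfl h1, ← Finset.mul_sum, hPA, sum_powerset_pow, Finset.card_product,
      Finset.card_univ, Fintype.card_fin, ← hc]
    ring
  have hA : (1 + 18 / (N : ℝ)) ^ (c * N) ≤ Real.exp (c * 18) := au8_exp 18 (by norm_num) c N (by omega)
  have hs2 : 1 ≤ s := by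
    rw [hs1]
    exact Finset.card_pos.mpr hs
  have hB : (PB.card : ℝ) ≤ (Real.sqrt s) ^ (3 * c) * Real.exp c := by
    rw [hPB]
    exact au8_count c s hs2 _ (by rw [Finset.card_product, ← hc, ← hs1])
  have hD : (PD.card : ℝ) ≤ 2 ^ c := by
    rw [hPD, Finset.card_powerset]
    push_cast
    exact pow_le_pow_right₀ (by norm_num) (hc ▸ anti_card τ)
  have hcard : (Nat.card {G : SimpleGraph (Fin N) // Cubic G ∧ IsAut G τ} : ℝ) = (S.card : ℝ) := by
    rw [Nat.card_eq_fintype_card, Fintype.card_subtype, hS]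
  rw [hcard, ← hc, ← hs1, ← hq]
  calc (S.card : ℝ) ≤ ((TT.biUnion U).card : ℝ) := by exact_mod_cast Finset.card_le_card hsub
    _ ≤ ∑ t ∈ TT, ((U t).card : ℝ) := by exact_mod_cast Finset.card_biUnion_le
    _ ≤ ∑ t ∈ TT, q ^ (3 * s) * (18 / (N : ℝ)) ^ t.1.card * X N := Finset.sum_le_sum hterm
    _ ≤ ∑ t ∈ PA ×ˢ PB ×ˢ PD, q ^ (3 * s) * (18 / (N : ℝ)) ^ t.1.card * X N := by
        apply Finset.sum_le_sum_of_subset_of_nonneg
        · rw [hTT]; exact Finset.filter_subset _ _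
        · intro t _ _
          positivity
    _ = q ^ (3 * s) * (1 + 18 / (N : ℝ)) ^ (c * N) * (PB.card * PD.card) * X N := hsum
    _ ≤ q ^ (3 * s) * Real.exp (c * 18) * (((Real.sqrt s) ^ (3 * c) * Real.exp c) * 2 ^ c) * X N := by
        apply mul_le_mul_of_nonneg_right _ hX
        apply mul_le_mul _ _ (by positivity) (by positivity)
        · exact mul_le_mul_of_nonneg_left hA (by positivity)
        · exact mul_le_mul hB hD (by positivity) (by positivity)
    _ = q ^ (3 * s) * (2 * Real.exp 19) ^ c * (Real.sqrt s) ^ (3 * c) * X N := by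
        have h1 : Real.exp (c * 18) * Real.exp c = (Real.exp 19) ^ c := by
          rw [← Real.exp_add, ← Real.exp_nat_mul]
          congr 1
          ring
        rw [mul_pow, ← h1]
        ring

end Pool.Agent.H38H.AU
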