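import Pool.Agent.Lib.H38H.Stm

/-!
Project H38H, module AU (automorphisms moving at least 5 points): definitions. See AU/README.md.
-/

set_option autoImplicit false

namespace Pool.Agent.H38H.AU

open Classical

variable {N : ℕ}

/-- representatives of the cycles of length at least 2: their least elements -/
noncomputable def reps (τ : Equiv.Perm (Fin N)) : Finset (Fin N) :=
  Finset.univ.filter fun v => τ v ≠ v ∧ ∀ k : ℤ, v ≤ (τ ^ k) v

/-- two pairs are in the same orbit of `τ` (as unordered pairs) -/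
def Sim (τ : Equiv.Perm (Fin N)) (p q : Fin N × Fin N) : Prop :=
  ∃ k : ℤ, s(q.1, q.2) = s((τ ^ k) p.1, (τ ^ k) p.2)

/-- the orbit of a pair -/
noncomputable def orb (τ : Equiv.Perm (Fin N)) (p : Fin N × Fin N) : Finset (Sym2 (Fin N)) :=
  Finset.univ.filter fun e => ∃ k : ℤ, e = s((τ ^ k) p.1, (τ ^ k) p.2)

/-- the edges generated by a set of pairs -/
noncomputable def gen (τ : Equiv.Perm (Fin N)) (M : Finset (Fin N × Fin N)) : Finset (Sym2 (Fin N)) :=
  M.biUnion (orb τ)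

/-- antipodal pairs on a cycle of even length -/
def Anti (τ : Equiv.Perm (Fin N)) (p : Fin N × Fin N) : Prop :=
  p.2 ≠ p.1 ∧ ∃ k : ℤ, (τ ^ k) p.1 = p.2 ∧ (τ ^ k) p.2 = p.1

/-- antipodal pairs whose first element is a representative -/
noncomputable def anti (τ : Equiv.Perm (Fin N)) : Finset (Fin N × Fin N) :=
  (reps τ ×ˢ Finset.univ).filter (Anti τ)

/-- the pairs (representative, neighbour) -/
noncomputable def dts (G : SimpleGraph (Fin N)) (τ : Equiv.Perm (Fin N)) : Finset (Fin N × Fin N) :=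
  (reps τ ×ˢ Finset.univ).filter fun p => G.Adj p.1 p.2

/-- the code of a graph: `A` = pairs leaving the support, `B` = pairs inside, `D` = antipodal pairs -/
structure Good (τ : Equiv.Perm (Fin N)) (A B D : Finset (Fin N × Fin N)) : Prop where
  hA : A ⊆ reps τ ×ˢ Finset.univ
  hB : B ⊆ reps τ ×ˢ τ.support
  hD : D ⊆ anti τ
  small : 2 * B.card ≤ 3 * (reps τ).card
  big : 3 * τ.support.card + 2 * A.card ≤ 2 * (gen τ (A ∪ B ∪ D)).card

theorem mem_reps {τ : Equiv.Perm (Fin N)} {v : Fin N} :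
    v ∈ reps τ ↔ τ v ≠ v ∧ ∀ k : ℤ, v ≤ (τ ^ k) v := by
  unfold reps
  simp

theorem mem_orb {τ : Equiv.Perm (Fin N)} {p : Fin N × Fin N} {e : Sym2 (Fin N)} :
    e ∈ orb τ p ↔ ∃ k : ℤ, e = s((τ ^ k) p.1, (τ ^ k) p.2) := by
  unfold orb
  simp

theorem mem_gen {τ : Equiv.Perm (Fin N)} {M : Finset (Fin N × Fin N)} {e : Sym2 (Fin N)} :
    e ∈ gen τ M ↔ ∃ p ∈ M, ∃ k : ℤ, e = s((τ ^ k) p.1, (τ ^ k) p.2) := by
  unfold gen
  simp [mem_orb]

theorem mem_anti {τ : Equiv.Perm (Fin N)} {p : Fin N × Fin N} :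
    p ∈ anti τ ↔ p.1 ∈ reps τ ∧ Anti τ p := by
  unfold anti
  simp

theorem mem_dts {G : SimpleGraph (Fin N)} {τ : Equiv.Perm (Fin N)} {p : Fin N × Fin N} :
    p ∈ dts G τ ↔ p.1 ∈ reps τ ∧ G.Adj p.1 p.2 := by
  unfold dts
  simp

theorem aut_zpow {G : SimpleGraph (Fin N)} {τ : Equiv.Perm (Fin N)} (h : IsAut G τ) (k : ℤ)
    (u v : Fin N) : G.Adj ((τ ^ k) u) ((τ ^ k) v) ↔ G.Adj u v := by
  have hinv : ∀ u v, G.Adj (τ⁻¹ u) (τ⁻¹ v) ↔ G.Adj u v := fun u v => by
    have h1 := h (τ⁻¹ u) (τ⁻¹ v)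
    have h2 : ∀ w, τ (τ⁻¹ w) = w := fun w => Equiv.apply_symm_apply τ w
    rw [h2, h2] at h1
    exact h1.symm
  induction k using Int.induction_on generalizing u v with
  | zero => simp
  | succ n ih =>
    rw [zpow_add_one, Equiv.Perm.mul_apply, Equiv.Perm.mul_apply]
    exact (ih (τ u) (τ v)).trans (h u v)
  | pred n ih =>
    rw [zpow_sub_one, Equiv.Perm.mul_apply, Equiv.Perm.mul_apply]
    exact (ih (τ⁻¹ u) (τ⁻¹ v)).trans (hinv u v)

end Pool.Agent.H38H.AU
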