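import Pool.Agent.Lib.H38H.AU.AU12

/-!
Project H38H, module AU, assembly: FewAut.
-/

set_option autoImplicit false

namespace Pool.Agent.H38H

open Classical

/-- the pairs are counted by summing over the permutations -/
theorem aum_card (N : ℕ) : (Nat.card {p : SimpleGraph (Fin N) × Equiv.Perm (Fin N) //
        Cubic p.1 ∧ IsAut p.1 p.2 ∧ 5 ≤ p.2.support.card} : ℝ) =
    ∑ τ ∈ (Finset.univ : Finset (Equiv.Perm (Fin N))).filter (fun τ => 5 ≤ τ.support.card),
      (Nat.card {G : SimpleGraph (Fin N) // Cubic G ∧ IsAut G τ} : ℝ) := by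
  have e : {p : SimpleGraph (Fin N) × Equiv.Perm (Fin N) //
        Cubic p.1 ∧ IsAut p.1 p.2 ∧ 5 ≤ p.2.support.card} ≃
      (Σ τ : {τ : Equiv.Perm (Fin N) // 5 ≤ τ.support.card},
        {G : SimpleGraph (Fin N) // Cubic G ∧ IsAut G τ.1}) :=
    { toFun := fun p => ⟨⟨p.1.2, p.2.2.2⟩, ⟨p.1.1, p.2.1, p.2.2.1⟩⟩
      invFun := fun q => ⟨(q.2.1, q.1.1), q.2.2.1, q.2.2.2, q.1.2⟩
      left_inv := fun p => rfl
      right_inv := fun q => rfl }
  rw [Nat.card_congr e, Nat.card_sigma, Nat.cast_sum]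
  rw [Finset.sum_subtype (p := fun τ : Equiv.Perm (Fin N) => 5 ≤ τ.support.card)]
  intro τ
  simp

theorem fewAut : FewAut := by
  obtain ⟨C, N₀, hC⟩ := AU.sum_numeric AU.KK (by unfold AU.KK; positivity)
  refine ⟨C, max N₀ 18, fun N hN hE => ?_⟩
  have h18 : 18 ≤ N := le_trans (le_max_right _ _) hN
  have hN₀ : N₀ ≤ N := le_trans (le_max_left _ _) hN
  have hX : 0 < X N := X_pos N
  rw [aum_card]
  have hmaps : ∀ τ ∈ (Finset.univ : Finset (Equiv.Perm (Fin N))).filter (fun τ => 5 ≤ τ.support.card),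
      τ.support.card ∈ Finset.Icc 5 N := by
    intro τ hτ
    rw [Finset.mem_filter] at hτ
    rw [Finset.mem_Icc]
    refine ⟨hτ.2, ?_⟩
    have := Finset.card_le_univ τ.support
    rwa [Fintype.card_fin] at this
  rw [← Finset.sum_fiberwise_of_maps_to hmaps]
  calc _ ≤ ∑ s ∈ Finset.Icc 5 N, (AU.KK * Real.sqrt (Real.sqrt s) / Real.sqrt N) ^ s * X N := by
        refine Finset.sum_le_sum fun s hs => ?_
        have hs5 : 5 ≤ s := (Finset.mem_Icc.1 hs).1
        refine le_trans (le_of_eq ?_) (AU.sum_supp hE h18 s (by omega))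
        refine Finset.sum_congr ?_ fun _ _ => rfl
        ext τ
        simp only [Finset.mem_filter, Finset.mem_univ, true_and]
        omega
    _ = (∑ s ∈ Finset.Icc 5 N, (AU.KK * Real.sqrt (Real.sqrt s) / Real.sqrt N) ^ s) * X N := by
        rw [Finset.sum_mul]
    _ ≤ C / ((N : ℝ) ^ 2 * Real.sqrt N) * X N := mul_le_mul_of_nonneg_right (hC N hN₀) hX.le
    _ = C * X N / ((N : ℝ) ^ 2 * Real.sqrt N) := by ring

end Pool.Agent.H38H
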